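import Pool.Agent.Lib.MP_6bc78b_nt.GP.Iface
import Pool.Agent.Lib.MP_6bc78b_nt.MS.P1.LSER

/-! Project GP, module DX2: the Dirichlet series of `D` and the size of its coefficients. -/

set_option autoImplicit false

open Complex Filter Topology ArithmeticFunction

namespace Pool.Agent.Lib.MP_6bc78b_nt.GP.H38

open Pool.Agent.Lib.MP_6bc78b_nt.MS Pool.Agent.Lib.MP_6bc78b_nt.MS.P1
open LSeries

/-- `log n` and `(log n)²` as coefficient functions -/
noncomputable def l1 : ℕ → ℂ := logMul 1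
noncomputable def l2 : ℕ → ℂ := logMul (logMul 1)

lemma absc_lt {s : ℂ} (hs : 1 < s.re) : abscissaOfAbsConv 1 < s.re := by
  rw [abscissaOfAbsConv_one]
  exact_mod_cast hs

lemma sum_one {s : ℂ} (hs : 1 < s.re) : LSeriesSummable 1 s :=
  LSeriesSummable_one_iff.mpr hs

lemma sum_l1 {s : ℂ} (hs : 1 < s.re) : LSeriesSummable l1 s :=
  LSeriesSummable_logMul_of_lt_re (absc_lt hs)

lemma sum_l2 {s : ℂ} (hs : 1 < s.re) : LSeriesSummable l2 s := by
  refine LSeriesSummable_logMul_of_lt_re ?_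
  rw [LSeries.abscissaOfAbsConv_logMul]
  exact absc_lt hs

lemma ev_zeta {s : ℂ} (hs : 1 < s.re) : riemannZeta =ᶠ[𝓝 s] LSeries 1 := by
  have hopen : IsOpen {z : ℂ | 1 < z.re} := isOpen_lt continuous_const Complex.continuous_re
  filter_upwards [hopen.mem_nhds hs] with z hz
  exact (LSeries_one_eq_riemannZeta hz).symm

lemma deriv_zeta {s : ℂ} (hs : 1 < s.re) : deriv riemannZeta s = -LSeries l1 s := by
  rw [(ev_zeta hs).deriv_eq, LSeries_deriv (absc_lt hs)]
  rfl

lemma deriv2_zeta {s : ℂ} (hs : 1 < s.re) : deriv (deriv riemannZeta) s = LSeries l2 s := by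
  have hopen : IsOpen {z : ℂ | 1 < z.re} := isOpen_lt continuous_const Complex.continuous_re
  have h1 : deriv riemannZeta =ᶠ[𝓝 s] fun z => -LSeries l1 z := by
    filter_upwards [hopen.mem_nhds hs] with z hz
    exact deriv_zeta hz
  rw [h1.deriv_eq, deriv.fun_neg]
  have h2 : abscissaOfAbsConv l1 < s.re := by
    unfold l1
    rw [LSeries.abscissaOfAbsConv_logMul]
    exact absc_lt hs
  rw [LSeries_deriv h2, neg_neg]
  rfl

lemma bn_term (A B : ℝ) (n : ℕ) (hn : n ≠ 0) : ((bn A B n : ℝ) : ℂ) =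
    (LSER.cast (La * lg) - (1 / 2 : ℂ) • l2 - (A : ℂ) • l1 - (B : ℂ) • (1 : ℕ → ℂ)) n := by
  unfold bn cn
  rw [if_neg hn]
  simp only [Pi.sub_apply, Pi.smul_apply, smul_eq_mul, LSER.cast, l1, l2, logMul, Pi.one_apply,
    mul_one]
  push_cast
  ring

lemma lser_congr (A B : ℝ) (s : ℂ) : LSeries (fun n => ((bn A B n : ℝ) : ℂ)) s =
    LSeries (LSER.cast (La * lg) - (1 / 2 : ℂ) • l2 - (A : ℂ) • l1 - (B : ℂ) • (1 : ℕ → ℂ)) s :=
  LSeries_congr (fun hn => bn_term A B _ hn) s

lemma sum_cn {s : ℂ} (hs : 1 < s.re) : LSeriesSummable (LSER.cast (La * lg)) s := by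
  obtain ⟨_, _, _, h4, h5, _⟩ := LSER.lser
  have h := (h5 s.re La lg (h4 s.re hs).1 (h4 s.re hs).2.1).1
  exact (LSER.asum_iff _ s).mp h

lemma sum_all (A B : ℝ) {s : ℂ} (hs : 1 < s.re) : LSeriesSummable
    (LSER.cast (La * lg) - (1 / 2 : ℂ) • l2 - (A : ℂ) • l1 - (B : ℂ) • (1 : ℕ → ℂ)) s :=
  (((sum_cn hs).sub ((sum_l2 hs).smul _)).sub ((sum_l1 hs).smul _)).sub ((sum_one hs).smul _)

lemma cn_bound (n : ℕ) : 0 ≤ cn n ∧ cn n ≤ Real.log n ^ 2 := by
  unfold cn
  rw [ArithmeticFunction.mul_apply]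
  have hL : ∀ d : ℕ, 0 ≤ La d := fun d => ArithmeticFunction.vonMangoldt_nonneg
  have hl : ∀ d : ℕ, lg d = Real.log d := fun d => ArithmeticFunction.log_apply
  constructor
  · refine Finset.sum_nonneg fun x _ => mul_nonneg (hL _) ?_
    rw [hl]
    exact Real.log_natCast_nonneg _
  · calc ∑ x ∈ n.divisorsAntidiagonal, La x.1 * lg x.2
        ≤ ∑ x ∈ n.divisorsAntidiagonal, La x.1 * Real.log n := by
          refine Finset.sum_le_sum fun x hx => mul_le_mul_of_nonneg_left ?_ (hL _)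
          rw [hl]
          rw [Nat.mem_divisorsAntidiagonal] at hx
          have h1 : x.2 ≠ 0 := by
            rintro h
            rw [h, mul_zero] at hx
            exact hx.2 hx.1.symm
          have h2 : x.2 ≤ n := Nat.le_of_dvd (Nat.pos_of_ne_zero hx.2) ⟨x.1, by rw [← hx.1]; ring⟩
          exact Real.log_le_log (by exact_mod_cast Nat.pos_of_ne_zero h1) (by exact_mod_cast h2)
      _ = (∑ d ∈ n.divisors, La d) * Real.log n := by
          rw [Finset.sum_mul]
          exact Nat.sum_divisorsAntidiagonal (fun d _ => La d * Real.log n)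
      _ = Real.log n ^ 2 := by
          rw [sq]
          congr 1
          exact ArithmeticFunction.vonMangoldt_sum

theorem dx2 : DX2Statement := by
  intro A B
  obtain ⟨g1, g2, g3, g4, g5, _⟩ := LSER.lser
  refine ⟨fun s hs => ?_, fun c hc => ?_, ?_⟩
  · rw [lser_congr]
    have e1 := (sum_cn hs).LSeriesHasSum
    rw [LSeries_sub (((sum_cn hs).sub ((sum_l2 hs).smul _)).sub ((sum_l1 hs).smul _))
      ((sum_one hs).smul _), LSeries_sub ((sum_cn hs).sub ((sum_l2 hs).smul _))
      ((sum_l1 hs).smul _), LSeries_sub (sum_cn hs) ((sum_l2 hs).smul _),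
      LSeries_smul, LSeries_smul, LSeries_smul]
    have h1 : LSeries (LSER.cast (La * lg)) s = LS La s * LS lg s :=
      (g5 s.re La lg (g4 s.re hs).1 (g4 s.re hs).2.1).2.2 s rfl
    rw [h1, g1 s hs, g2 s hs, LSeries_one_eq_riemannZeta hs]
    have h2 := deriv_zeta hs
    have h3 := deriv2_zeta hs
    have h4 : LSeries l1 s = -deriv riemannZeta s := by rw [h2, neg_neg]
    rw [← h3, h4]
    unfold DF FF F0
    rw [logDeriv_apply]
    ring
  · have h := sum_all A B (s := (c : ℂ)) (by simpa using hc)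
    have h2 : LSeriesSummable (fun n => ((bn A B n : ℝ) : ℂ)) (c : ℂ) :=
      (LSeriesSummable_congr _ (fun hn => bn_term A B _ hn)).mpr h
    unfold LSeriesSummable at h2
    rw [← summable_norm_iff] at h2
    refine h2.congr fun n => ?_
    rw [LSeries.norm_term_eq]
    rcases eq_or_ne n 0 with rfl | hn
    · simp [bn]
    · rw [if_neg hn, Complex.norm_real, Real.norm_eq_abs, Real.rpow_neg (Nat.cast_nonneg n),
        div_eq_mul_inv, Complex.ofReal_re]
  · refine ⟨1 + |A| + |B| + 1, by positivity, fun n => ?_⟩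
    unfold bn
    split_ifs with hn
    · rw [abs_zero]; positivity
    have hlog : 0 ≤ Real.log n := Real.log_natCast_nonneg n
    obtain ⟨c0, c1⟩ := cn_bound n
    have hA := abs_nonneg A
    have hB := abs_nonneg B
    have hA1 := neg_abs_le A
    have hA2 := le_abs_self A
    have hB1 := neg_abs_le B
    have hB2 := le_abs_self B
    set L := Real.log n with hL
    have hAL : |A * L| ≤ |A| * L := by rw [abs_mul, abs_of_nonneg hlog]
    obtain ⟨k1, k2⟩ := abs_le.mp hAL
    rw [abs_le]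
    constructor <;> nlinarith [mul_nonneg hA hlog, mul_nonneg hB hlog, sq_nonneg L,
      mul_nonneg hA (sq_nonneg L), mul_nonneg hB (sq_nonneg L)]

end Pool.Agent.Lib.MP_6bc78b_nt.GP.H38
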